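import Pool.Agent.Helper2.PF.Cb5
import Pool.Agent.Helper3.PF.Qs
import Pool.Agent.Helper3.PF.Zero
import Pool.Agent.Helper21.PF.E8c

/-!
Project PF (MP_b8862a_ag), COMB-II: assembly.
-/

set_option linter.unusedSectionVars false

open scoped RealInnerProductSpace

namespace PF

variable {E : Type*} [NormedAddCommGroup E] [InnerProductSpace ℝ E] {Φ X : Finset E}



/-- the root lattice is generated by the short roots -/
theorem NRS.closure_le2 (h : NRS Φ) : AddSubgroup.closure (Φ : Set E) ≤ AddSubgroup.closure (Psi Φ : Set E) := by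
  rw [AddSubgroup.closure_le]
  intro b hb
  rw [Finset.mem_coe] at hb
  have hmem : ∀ x ∈ Psi Φ, x ∈ AddSubgroup.closure (Psi Φ : Set E) := fun x hx => AddSubgroup.subset_closure hx
  obtain ⟨g, hg, hbg⟩ := h.exists_short hb
  have key : b - g ∈ Psi Φ → b ∈ AddSubgroup.closure (Psi Φ : Set E) := by
    intro h1
    have h2 := AddSubgroup.add_mem _ (hmem _ h1) (hmem g hg)
    rwa [sub_add_cancel] at h2
  rcases h.length hb with h2 | h4 | h6
  · exact hmem b (mem_Psi2.2 ⟨hb, h2⟩)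
  · rcases h.four hb h4 hg with h1 | h1 | h1
    · rw [h1] at hbg; exact absurd hbg (lt_irrefl _)
    · exact key (h.four_sub hb h4 hg h1).1
    · rw [h1] at hbg; norm_num at hbg
  · rcases h.six hb h6 hg with h1 | h1 | h1
    · rw [h1] at hbg; exact absurd hbg (lt_irrefl _)
    · exact key (h.six_sub hb h6 hg h1).1
    · rw [h1] at hbg; norm_num at hbg

/-- numerics -/
theorem num_two {A u n p : ℝ} (hA : 0 ≤ A) (hu : 0 ≤ u) (hp0 : 0 ≤ p) (h1 : (A + 2) * (3 * A + 4) ≤ 8 * n)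
    (h2 : u ^ 2 + 20 * u + 128 ≤ 32 * n) (h3 : 25 * n ≤ p ^ 2) (h4 : p ≤ A + (7 + u / 2)) : False := by
  have h5 : p ^ 2 ≤ (A + (7 + u / 2)) ^ 2 := by
    apply pow_le_pow_left₀ hp0 h4
  nlinarith [sq_nonneg (A - u / 2), sq_nonneg (A - 2), mul_nonneg hA hu]

open Classical in
/-- **COMB-II** -/
theorem Sat.comb_two (h : NRS Φ) (hX : Sat Φ X) (h0 : (0 : E) ∉ X) {p : ℕ} (hp : 25 * X.card ≤ p ^ 2) {a x : E}
    (ha : a ∈ Φ) (hx : x ∈ X) (hb : (p : ℝ) ≤ co a x + qs Φ a) : TypeA Φ ∨ TypeD Φ X := by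
  by_cases hnb : ∃ g ∈ Psi Φ, (Nb Φ g).Nonempty
  · obtain ⟨g, hg, hug⟩ := hnb
    have S := h.SL2
    have N := Sat.Mn2 h hX h0 h.closure_le2
    have hirr : PFc.Irr (Psi Φ) := h.irr_Psi hg hug
    have hu : ∀ d ∈ Psi Φ, ((Psi Φ).filter fun e => ⟪e, d⟫ = 1).card = (Nb Φ g).card := by
      intro d hd
      rw [← h.card_Nb hg hug hd]
      unfold Nb
      congr
    -- the largest pairing
    obtain ⟨q, hq, hmax⟩ := Finset.exists_max_image (X ×ˢ Psi Φ) (fun q => (⟪q.1, q.2⟫ : ℝ))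
      ⟨(x, g), Finset.mem_product.2 ⟨hx, hg⟩⟩
    rw [Finset.mem_product] at hq
    have hmax' : ∀ y ∈ X, ∀ d ∈ Psi Φ, (⟪y, d⟫ : ℝ) ≤ ⟪q.1, q.2⟫ := fun y hy d hd =>
      hmax (y, d) (Finset.mem_product.2 ⟨hy, hd⟩)
    have huq : (Nb Φ q.2).Nonempty := by
      rw [← Finset.card_pos, h.card_Nb hg hug hq.2]
      exact Finset.card_pos.2 hug
    have hB4 := Sat.card_str h hX hq.2 huq hq.1 hmax'
    have hco : co a x ≤ ⟪q.1, q.2⟫ := h.co_le (fun d hd => hmax' x hx d hd) ha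
    obtain ⟨ν, hν⟩ := Mm_nonempty hX.nonempty
    -- it is positive
    have hA1 : (1 : ℝ) ≤ ⟪q.1, q.2⟫ := by
      obtain ⟨d, hd, hd0⟩ := N.ne ν hν
      rcases N.val ν hν d hd with h5 | h5 | h5
      · exact absurd h5 hd0
      · rw [← h5]; exact hmax' ν (mem_Mm.1 hν).1 d hd
      · have h6 := hmax' ν (mem_Mm.1 hν).1 (-d) (S.neg d hd)
        rw [inner_neg_right, h5, neg_neg] at h6
        exact h6
    have hpn : (25 : ℝ) * X.card ≤ (p : ℝ) ^ 2 := by exact_mod_cast hp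
    by_cases h6 : ∃ b ∈ Φ, inner ℝ b b = (6 : ℝ)
    · exfalso
      obtain ⟨b, hb6, h6⟩ := h6
      have h7 := h.qs_le_six hb6 h6 ha
      have h8 : (p : ℝ) ^ 2 ≤ (⟪q.1, q.2⟫ + 5) ^ 2 := pow_le_pow_left₀ (Nat.cast_nonneg p) (by linarith) 2
      nlinarith
    · push Not at h6
      have h7 := h.qs_le h6 hg hug ha
      have hbig : ¬ ((Nb Φ g).card ^ 2 + 20 * (Nb Φ g).card + 128 ≤ 32 * (Mm X).card) := by
        intro h8
        have h9 : (Mm X).card ≤ X.card := Finset.card_le_card fun y hy => (mem_Mm.1 hy).1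
        have h10 : ((Nb Φ g).card : ℝ) ^ 2 + 20 * ((Nb Φ g).card : ℝ) + 128 ≤ 32 * (X.card : ℝ) := by
          have : (Nb Φ g).card ^ 2 + 20 * (Nb Φ g).card + 128 ≤ 32 * X.card := by omega
          exact_mod_cast this
        exact num_two (A := ⟪q.1, q.2⟫) (by linarith) (Nat.cast_nonneg _) (Nat.cast_nonneg p) hB4 h10 hpn (by linarith)
      have hone : ∀ y ∈ Mm X, ⟪y, y⟫ = (1 : ℝ) ∧ ∃ a ∈ Psi Φ, ∃ b ∈ Psi Φ, ⟪a, b⟫ = (0 : ℝ) ∧ y + y = a + b := by
        intro y hy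
        rcases PFc.Mn.dichotomy S N hirr (u := (Nb Φ g).card) (Finset.card_pos.2 hug) (fun d hd => by
          convert hu d hd using 2) hy with h8 | h8
        · exact h8
        · exact absurd h8 hbig
      right
      refine frame h hX ⟨g, hg, hug⟩ ?_ ?_ ⟨ν, (mem_Mm.1 hν).1, (hone ν hν).1⟩ hp ha hx hb
      · intro y hy
        rw [← (hone ν hν).1]
        exact (mem_Mm.1 hν).2 y hy
      · intro y hy h1
        refine (hone y (mem_Mm.2 ⟨hy, fun z hz => ?_⟩)).2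
        rw [h1, ← (hone ν hν).1]
        exact (mem_Mm.1 hν).2 z hz
  · push Not at hnb
    left
    exact u0 h hX h0 (fun g hg => Finset.not_nonempty_iff_eq_empty.1 (by
      have := hnb g hg
      simpa using this)) hp ha hx hb

end PF
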