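import Mathlib

/-!
Project PF (MP_b8862a_ag), COMB-II, first part: minuscule weights with `-ν` in the same orbit are half sums of orthogonal roots.
-/

set_option linter.unusedSectionVars false

open scoped RealInnerProductSpace

namespace PFc

variable {E : Type*} [NormedAddCommGroup E] [InnerProductSpace ℝ E]

/-- A simply laced set of roots of square norm two. -/
structure SL (Ψ : Finset E) : Prop where
  norm : ∀ g ∈ Ψ, ⟪g, g⟫ = 2
  neg : ∀ g ∈ Ψ, -g ∈ Ψ
  int : ∀ g ∈ Ψ, ∀ d ∈ Ψ, ∃ z : ℤ, ⟪g, d⟫ = z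
  sub : ∀ g ∈ Ψ, ∀ d ∈ Ψ, ⟪g, d⟫ = 1 → g - d ∈ Ψ

/-- A set of minuscule weights, stable under the reflections and under `-1`, in one coset of the root lattice. -/
structure Mn (Ψ M : Finset E) : Prop where
  val : ∀ ν ∈ M, ∀ g ∈ Ψ, ⟪ν, g⟫ = 0 ∨ ⟪ν, g⟫ = 1 ∨ ⟪ν, g⟫ = -1
  refl : ∀ ν ∈ M, ∀ g ∈ Ψ, ⟪ν, g⟫ = 1 → ν - g ∈ M
  neg : ∀ ν ∈ M, -ν ∈ M
  coset : ∀ ν ∈ M, ∀ μ ∈ M, ν - μ ∈ AddSubgroup.closure (Ψ : Set E)
  ne : ∀ ν ∈ M, ∃ g ∈ Ψ, ⟪ν, g⟫ ≠ 0

section SL

variable {Ψ : Finset E} (S : SL Ψ)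
include S

theorem SL.cases {g d : E} (hg : g ∈ Ψ) (hd : d ∈ Ψ) :
    g = d ∨ ⟪g, d⟫ = 1 ∨ ⟪g, d⟫ = 0 ∨ ⟪g, d⟫ = -1 ∨ d = -g := by
  obtain ⟨z, hz⟩ := S.int g hg d hd
  have h1 : ⟪g - d, g - d⟫ = 4 - 2 * z := by
    rw [inner_sub_left, inner_sub_right, inner_sub_right, S.norm g hg, S.norm d hd, real_inner_comm g d, hz]
    ring
  have h2 : ⟪g + d, g + d⟫ = 4 + 2 * z := by
    rw [inner_add_left, inner_add_right, inner_add_right, S.norm g hg, S.norm d hd, real_inner_comm g d, hz]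
    ring
  have h3 : 0 ≤ ⟪g - d, g - d⟫ := real_inner_self_nonneg
  have h4 : 0 ≤ ⟪g + d, g + d⟫ := real_inner_self_nonneg
  rw [h1] at h3
  rw [h2] at h4
  have h5 : z ≤ 2 := by
    have : (z : ℝ) ≤ 2 := by linarith
    exact_mod_cast this
  have h6 : -2 ≤ z := by
    have : (-2 : ℝ) ≤ z := by linarith
    exact_mod_cast this
  have h7 : z = 2 ∨ z = 1 ∨ z = 0 ∨ z = -1 ∨ z = -2 := by omega
  rcases h7 with h | h | h | h | h
  · left
    rw [h] at h1
    have : ⟪g - d, g - d⟫ = 0 := by rw [h1]; norm_num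
    exact sub_eq_zero.1 (inner_self_eq_zero.1 this)
  · right; left; rw [hz, h]; norm_num
  · right; right; left; rw [hz, h]; norm_num
  · right; right; right; left; rw [hz, h]; norm_num
  · right; right; right; right
    rw [h] at h2
    have : ⟪g + d, g + d⟫ = 0 := by rw [h2]; norm_num
    exact (neg_eq_of_add_eq_zero_right (inner_self_eq_zero.1 this)).symm

theorem SL.add {g d : E} (hg : g ∈ Ψ) (hd : d ∈ Ψ) (h : ⟪g, d⟫ = -1) : g + d ∈ Ψ := by
  have h1 := S.sub g hg (-d) (S.neg d hd) (by rw [inner_neg_right, h, neg_neg])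
  rwa [sub_neg_eq_add] at h1

theorem SL.ne_zero {g : E} (hg : g ∈ Ψ) : g ≠ 0 := by
  intro h
  have := S.norm g hg
  rw [h, inner_zero_left] at this
  norm_num at this

/-- elements of the root lattice are sums of roots -/
theorem SL.exists_sum {z : E} (hz : z ∈ AddSubgroup.closure (Ψ : Set E)) :
    ∃ s : Multiset E, (∀ c ∈ s, c ∈ Ψ) ∧ s.sum = z := by
  induction hz using AddSubgroup.closure_induction with
  | mem x hx => exact ⟨{x}, fun c hc => by rw [Multiset.mem_singleton] at hc; rw [hc]; exact hx, Multiset.sum_singleton x⟩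
  | zero => exact ⟨0, fun c hc => absurd hc (Multiset.notMem_zero c), Multiset.sum_zero⟩
  | add x y _ _ hx hy =>
    obtain ⟨s, hs, h1⟩ := hx
    obtain ⟨t, ht, h2⟩ := hy
    refine ⟨s + t, fun c hc => ?_, by rw [Multiset.sum_add, h1, h2]⟩
    rcases Multiset.mem_add.1 hc with h | h
    · exact hs c h
    · exact ht c h
  | neg x _ hx =>
    obtain ⟨s, hs, h1⟩ := hx
    refine ⟨s.map fun c => -c, fun c hc => ?_, by rw [Multiset.sum_map_neg', h1]⟩
    obtain ⟨d, hd, rfl⟩ := Multiset.mem_map.1 hc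
    exact S.neg d (hs d hd)

/-- a nonzero element of the root lattice has inner product at least two with some root -/
theorem SL.exists_two_le {z : E} (hz : z ∈ AddSubgroup.closure (Ψ : Set E)) (h0 : z ≠ 0) :
    ∃ c ∈ Ψ, 2 ≤ ⟪z, c⟫ := by
  classical
  obtain ⟨s, hs, h1⟩ := S.exists_sum hz
  -- choose the multiset of least cardinality
  have hex : ∃ m : ℕ, ∃ s : Multiset E, (∀ c ∈ s, c ∈ Ψ) ∧ s.sum = z ∧ Multiset.card s = m := ⟨_, s, hs, h1, rfl⟩
  obtain ⟨s, hs, h1, hm⟩ := Nat.find_spec hex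
  have hmin : ∀ t : Multiset E, (∀ c ∈ t, c ∈ Ψ) → t.sum = z → Multiset.card s ≤ Multiset.card t := by
    intro t ht h2
    rw [hm]
    exact Nat.find_min' hex ⟨t, ht, h2, rfl⟩
  have hne : s ≠ 0 := by
    intro h
    rw [h, Multiset.sum_zero] at h1
    exact h0 h1.symm
  obtain ⟨c, hc⟩ := Multiset.exists_mem_of_ne_zero hne
  obtain ⟨t, rfl⟩ := Multiset.exists_cons_of_mem hc
  have hcΨ : c ∈ Ψ := hs c hc
  refine ⟨c, hcΨ, ?_⟩
  have hnn : ∀ d ∈ t, 0 ≤ ⟪d, c⟫ := by
    intro d hd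
    have hdΨ : d ∈ Ψ := hs d (Multiset.mem_cons_of_mem hd)
    obtain ⟨t', rfl⟩ := Multiset.exists_cons_of_mem hd
    rcases S.cases hdΨ hcΨ with h | h | h | h | h
    · rw [h, S.norm c hcΨ]; norm_num
    · rw [h]; norm_num
    · rw [h]
    · exfalso
      have h2 := hmin ((d + c) ::ₘ t') (by
        intro e he
        rcases Multiset.mem_cons.1 he with h3 | h3
        · rw [h3]; exact S.add hdΨ hcΨ h
        · exact hs e (Multiset.mem_cons_of_mem (Multiset.mem_cons_of_mem h3))) (by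
        rw [Multiset.sum_cons, ← h1, Multiset.sum_cons, Multiset.sum_cons]
        abel)
      simp only [Multiset.card_cons] at h2
      omega
    · exfalso
      have h2 := hmin t' (by
        intro e he
        exact hs e (Multiset.mem_cons_of_mem (Multiset.mem_cons_of_mem he))) (by
        rw [← h1, Multiset.sum_cons, Multiset.sum_cons, h]
        abel)
      simp only [Multiset.card_cons] at h2
      omega
  have h3 : ⟪z, c⟫ = 2 + (t.map fun d => ⟪d, c⟫).sum := by
    rw [← h1, Multiset.sum_cons, inner_add_left, S.norm c hcΨ]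
    congr 1
    clear hmin hnn h1 hne hc hm hs
    induction t using Multiset.induction_on with
    | empty => simp
    | cons a t ih => rw [Multiset.sum_cons, inner_add_left, Multiset.map_cons, Multiset.sum_cons, ih]
  rw [h3]
  have h4 : 0 ≤ (t.map fun d => ⟪d, c⟫).sum := by
    apply Multiset.sum_nonneg
    intro x hx
    obtain ⟨d, hd, rfl⟩ := Multiset.mem_map.1 hx
    exact hnn d hd
  linarith

end SL

section Mn

variable {Ψ M : Finset E} (S : SL Ψ) (N : Mn Ψ M)
include S N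

/-- the antidominant weight is unique -/
theorem Mn.unique {ℓ : E → ℝ} (hℓ : ∀ d ∈ Ψ, ℓ d ≠ 0) (hneg : ∀ d ∈ Ψ, ℓ (-d) = -ℓ d) {x y : E} (hx : x ∈ M) (hy : y ∈ M)
    (h1 : ∀ d ∈ Ψ, 0 < ℓ d → ⟪x, d⟫ ≤ 0) (h2 : ∀ d ∈ Ψ, 0 < ℓ d → ⟪y, d⟫ ≤ 0) : x = y := by
  by_contra hne
  obtain ⟨c, hc, h3⟩ := S.exists_two_le (N.coset x hx y hy) (sub_ne_zero.2 hne)
  rw [inner_sub_left] at h3
  have h4 : ⟪x, c⟫ = 1 ∧ ⟪y, c⟫ = -1 := by
    rcases N.val x hx c hc with h | h | h <;> rcases N.val y hy c hc with h' | h' | h' <;>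
      rw [h, h'] at h3 <;> norm_num at h3
    exact ⟨h, h'⟩
  rcases lt_or_gt_of_ne (hℓ c hc) with h5 | h5
  · have h6 := h2 (-c) (S.neg c hc) (by rw [hneg c hc]; linarith)
    rw [inner_neg_right, h4.2] at h6
    norm_num at h6
  · have h6 := h1 c hc h5
    rw [h4.1] at h6
    norm_num at h6

/-- roots with inner product one with a weight have nonnegative inner products -/
theorem Mn.nonneg {ν a b : E} (hν : ν ∈ M) (ha : a ∈ Ψ) (hb : b ∈ Ψ) (h1 : ⟪ν, a⟫ = 1) (h2 : ⟪ν, b⟫ = 1) :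
    a = b ∨ ⟪a, b⟫ = 1 ∨ ⟪a, b⟫ = 0 := by
  rcases S.cases ha hb with h | h | h | h | h
  · exact Or.inl h
  · exact Or.inr (Or.inl h)
  · exact Or.inr (Or.inr h)
  · exfalso
    have h3 := N.val ν hν _ (S.add ha hb h)
    rw [inner_add_right, h1, h2] at h3
    norm_num at h3
  · exfalso
    rw [h, inner_neg_right, h1] at h2
    norm_num at h2

theorem Mn.nonneg' {ν a b : E} (hν : ν ∈ M) (ha : a ∈ Ψ) (hb : b ∈ Ψ) (h1 : ⟪ν, a⟫ = 1) (h2 : ⟪ν, b⟫ = 1) :
    0 ≤ ⟪a, b⟫ := by
  rcases Mn.nonneg S N hν ha hb h1 h2 with h | h | h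
  · rw [h, S.norm b hb]; norm_num
  · rw [h]; norm_num
  · rw [h]

/-- an orthogonal family of roots of `R` -/
def OrthIn (Ψ : Finset E) (ν : E) (O : Finset E) : Prop :=
  (∀ a ∈ O, a ∈ Ψ ∧ ⟪ν, a⟫ = 1) ∧ ∀ a ∈ O, ∀ b ∈ O, a ≠ b → ⟪a, b⟫ = 0

theorem Mn.sub_sum {ν : E} (hν : ν ∈ M) {O : Finset E} (hO : OrthIn Ψ ν O) : ν - ∑ a ∈ O, a ∈ M := by
  classical
  induction O using Finset.induction_on with
  | empty => rw [Finset.sum_empty, sub_zero]; exact hν
  | insert a O ha ih =>
    have h1 : OrthIn Ψ ν O :=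
      ⟨fun b hb => hO.1 b (Finset.mem_insert_of_mem hb), fun b hb c hc => hO.2 b (Finset.mem_insert_of_mem hb) c
        (Finset.mem_insert_of_mem hc)⟩
    have h2 := N.refl _ (ih h1) a (hO.1 a (Finset.mem_insert_self a O)).1 (by
      rw [inner_sub_left, (hO.1 a (Finset.mem_insert_self a O)).2, sum_inner, Finset.sum_eq_zero, sub_zero]
      intro b hb
      exact hO.2 b (Finset.mem_insert_of_mem hb) a (Finset.mem_insert_self a O) (fun h => ha (h ▸ hb)))
    rw [Finset.sum_insert ha]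
    have h3 : ν - (a + ∑ x ∈ O, x) = ν - ∑ a ∈ O, a - a := by abel
    rw [h3]
    exact h2

/-- **(E5)** -/
theorem Mn.exists_orth {ν : E} (hν : ν ∈ M) : ∃ O : Finset E, OrthIn Ψ ν O ∧ (2 : ℝ) • ν = ∑ a ∈ O, a := by
  classical
  -- a functional
  obtain ⟨f, hf⟩ := Module.exists_dual_forall_apply_ne_zero (K := ℝ) (fun g : Ψ => (g : E)) (fun g => S.ne_zero g.2)
  obtain ⟨B, hB⟩ : ∃ B : ℝ, ∀ g ∈ Ψ, |f g| ≤ B :=
    ⟨∑ g ∈ Ψ, |f g|, fun g hg => Finset.single_le_sum (f := fun g => |f g|) (fun _ _ => abs_nonneg _) hg⟩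
  set ℓ : E → ℝ := fun x => (B + 1) * ⟪ν, x⟫ + f x with hℓdef
  have hadd : ∀ x y, ℓ (x + y) = ℓ x + ℓ y := by
    intro x y
    simp only [hℓdef, inner_add_right, map_add]
    ring
  have hneg : ∀ x, ℓ (-x) = -ℓ x := by
    intro x
    simp only [hℓdef, inner_neg_right, map_neg]
    ring
  have hpos : ∀ g ∈ Ψ, ⟪ν, g⟫ = 1 → 0 < ℓ g := by
    intro g hg h
    simp only [hℓdef, h]
    have := abs_le.1 (hB g hg)
    linarith
  have hnegv : ∀ g ∈ Ψ, ⟪ν, g⟫ = -1 → ℓ g < 0 := by
    intro g hg h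
    simp only [hℓdef, h]
    have := abs_le.1 (hB g hg)
    linarith
  have hne : ∀ g ∈ Ψ, ℓ g ≠ 0 := by
    intro g hg
    rcases N.val ν hν g hg with h | h | h
    · simp only [hℓdef, h, mul_zero, zero_add]
      exact hf ⟨g, hg⟩
    · exact ne_of_gt (hpos g hg h)
    · exact ne_of_lt (hnegv g hg h)
  have hsum : ∀ O : Finset E, ℓ (∑ a ∈ O, a) = ∑ a ∈ O, ℓ a := by
    intro O
    simp only [hℓdef, inner_sum, map_sum, Finset.sum_add_distrib, Finset.mul_sum]
  -- the best orthogonal family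
  obtain ⟨O, hO, hmax⟩ := Finset.exists_max_image (Ψ.powerset.filter fun O => OrthIn Ψ ν O) (fun O => ∑ a ∈ O, ℓ a)
    ⟨∅, Finset.mem_filter.2 ⟨Finset.empty_mem_powerset _, fun a ha => absurd ha (Finset.notMem_empty a),
      fun a ha => absurd ha (Finset.notMem_empty a)⟩⟩
  rw [Finset.mem_filter, Finset.mem_powerset] at hO
  obtain ⟨hOΨ, hO⟩ := hO
  have hmax' : ∀ O' : Finset E, OrthIn Ψ ν O' → ∑ a ∈ O', ℓ a ≤ ∑ a ∈ O, ℓ a := by
    intro O' hO'
    exact hmax O' (Finset.mem_filter.2 ⟨Finset.mem_powerset.2 fun a ha => (hO'.1 a ha).1, hO'⟩)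
  refine ⟨O, hO, ?_⟩
  have hx := Mn.sub_sum S N hν hO
  have key : ν - ∑ a ∈ O, a = -ν := by
    refine Mn.unique S N hne (fun d _ => hneg d) hx (N.neg ν hν) ?_ ?_
    · intro d hd hpd
      by_contra hcon
      push Not at hcon
      have hxd : ⟪ν - ∑ a ∈ O, a, d⟫ = 1 := by
        rcases N.val _ hx d hd with h | h | h
        · rw [h] at hcon; exact absurd hcon (lt_irrefl _)
        · exact h
        · rw [h] at hcon; norm_num at hcon
      rw [inner_sub_left, sum_inner] at hxd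
      rcases N.val ν hν d hd with h | h | h
      · -- exchange
        rw [h] at hxd
        have hs : ∑ a ∈ O, ⟪a, d⟫ = -1 := by linarith
        obtain ⟨a, ha, had⟩ : ∃ a ∈ O, ⟪a, d⟫ < 0 := by
          by_contra hno
          push Not at hno
          have := Finset.sum_nonneg hno
          linarith
        have haΨ := (hO.1 a ha).1
        have had' : ⟪a, d⟫ = -1 := by
          rcases S.cases haΨ hd with h' | h' | h' | h' | h'
          · rw [h', S.norm d hd] at had; norm_num at had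
          · rw [h'] at had; norm_num at had
          · rw [h'] at had; exact absurd had (lt_irrefl _)
          · exact h'
          · exfalso
            rw [h', inner_neg_right, (hO.1 a ha).2] at h
            norm_num at h
        have hb := S.add haΨ hd had'
        have hνb : ⟪ν, a + d⟫ = 1 := by rw [inner_add_right, (hO.1 a ha).2, h, add_zero]
        have hbj : ∀ c ∈ O, c ≠ a → ⟪c, a + d⟫ = ⟪c, d⟫ ∧ 0 ≤ ⟪c, d⟫ := by
          intro c hc hca
          have h1 : ⟪c, a + d⟫ = ⟪c, d⟫ := by rw [inner_add_right, hO.2 c hc a ha hca, zero_add]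
          exact ⟨h1, h1 ▸ Mn.nonneg' S N hν (hO.1 c hc).1 hb (hO.1 c hc).2 hνb⟩
        have hs2 : ∑ c ∈ O.erase a, ⟪c, d⟫ = 0 := by
          have := Finset.add_sum_erase O (fun c => ⟪c, d⟫) ha
          linarith
        have hz : ∀ c ∈ O.erase a, ⟪c, d⟫ = 0 :=
          (Finset.sum_eq_zero_iff_of_nonneg fun c hc => (hbj c (Finset.mem_of_mem_erase hc)
            (Finset.ne_of_mem_erase hc)).2).1 hs2
        have hnot : a + d ∉ O.erase a := by
          intro hmem
          have h1 := hO.2 _ (Finset.mem_of_mem_erase hmem) a ha (Finset.ne_of_mem_erase hmem)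
          rw [inner_add_left, S.norm a haΨ, real_inner_comm, had'] at h1
          norm_num at h1
        have hO' : OrthIn Ψ ν (insert (a + d) (O.erase a)) := by
          refine ⟨?_, ?_⟩
          · intro c hc
            rcases Finset.mem_insert.1 hc with h1 | h1
            · rw [h1]; exact ⟨hb, hνb⟩
            · exact hO.1 c (Finset.mem_of_mem_erase h1)
          · intro c hc c' hc' hcc
            rcases Finset.mem_insert.1 hc with h1 | h1 <;> rcases Finset.mem_insert.1 hc' with h2 | h2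
            · exact absurd (h1.trans h2.symm) hcc
            · rw [h1, real_inner_comm, (hbj c' (Finset.mem_of_mem_erase h2) (Finset.ne_of_mem_erase h2)).1]
              exact hz c' h2
            · rw [h2, (hbj c (Finset.mem_of_mem_erase h1) (Finset.ne_of_mem_erase h1)).1]
              exact hz c h1
            · exact hO.2 c (Finset.mem_of_mem_erase h1) c' (Finset.mem_of_mem_erase h2) hcc
        have hle := hmax' _ hO'
        rw [Finset.sum_insert hnot, hadd] at hle
        have := Finset.add_sum_erase O ℓ ha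
        linarith
      · -- add d
        rw [h] at hxd
        have hs : ∑ a ∈ O, ⟪a, d⟫ = 0 := by linarith
        have hz : ∀ a ∈ O, ⟪a, d⟫ = 0 :=
          (Finset.sum_eq_zero_iff_of_nonneg fun a ha => Mn.nonneg' S N hν (hO.1 a ha).1 hd (hO.1 a ha).2 h).1 hs
        have hnot : d ∉ O := by
          intro hmem
          have := hz d hmem
          rw [S.norm d hd] at this
          norm_num at this
        have hO' : OrthIn Ψ ν (insert d O) := by
          refine ⟨?_, ?_⟩
          · intro c hc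
            rcases Finset.mem_insert.1 hc with h1 | h1
            · rw [h1]; exact ⟨hd, h⟩
            · exact hO.1 c h1
          · intro c hc c' hc' hcc
            rcases Finset.mem_insert.1 hc with h1 | h1 <;> rcases Finset.mem_insert.1 hc' with h2 | h2
            · exact absurd (h1.trans h2.symm) hcc
            · rw [h1, real_inner_comm]; exact hz c' h2
            · rw [h2]; exact hz c h1
            · exact hO.2 c h1 c' h2 hcc
        have hle := hmax' _ hO'
        rw [Finset.sum_insert hnot] at hle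
        linarith
      · exact absurd hpd (not_lt.2 (hnegv d hd h).le)
    · intro d hd hpd
      rw [inner_neg_left]
      rcases N.val ν hν d hd with h | h | h
      · rw [h, neg_zero]
      · rw [h]; norm_num
      · exact absurd hpd (not_lt.2 (hnegv d hd h).le)
  have h5 : ∑ a ∈ O, a = ν + ν := by
    have h6 : ν + ν = ν - -ν := by abel
    rw [h6, ← key]
    abel
  rw [two_smul, h5]

end Mn

end PFc
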