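import Pool.Agent.Helper2.PF.Cb1

/-!
Project PF (MP_b8862a_ag), COMB-II, second part: the number of minuscule weights.
-/

set_option linter.unusedSectionVars false

open scoped RealInnerProductSpace

namespace PFc

variable {E : Type*} [NormedAddCommGroup E] [InnerProductSpace ℝ E]

open Classical in
/-- the roots with inner product one with `ν` -/
noncomputable def Rt (Ψ : Finset E) (ν : E) : Finset E := Ψ.filter fun a => ⟪ν, a⟫ = 1

theorem mem_Rt {Ψ : Finset E} {ν a : E} : a ∈ Rt Ψ ν ↔ a ∈ Ψ ∧ ⟪ν, a⟫ = 1 := by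
  unfold Rt
  rw [Finset.mem_filter]

/-- irreducibility -/
def Irr (Ψ : Finset E) : Prop :=
  ∀ S ⊆ Ψ, S.Nonempty → (∀ a ∈ S, ∀ b ∈ Ψ, b ∉ S → ⟪a, b⟫ = 0) → S = Ψ

section

variable {Ψ M : Finset E} (S : SL Ψ) (N : Mn Ψ M) {ν : E} (hν : ν ∈ M)
include S N hν

theorem Mn.rt_cases {a b : E} (ha : a ∈ Rt Ψ ν) (hb : b ∈ Rt Ψ ν) : a = b ∨ ⟪a, b⟫ = 1 ∨ ⟪a, b⟫ = 0 :=
  Mn.nonneg S N hν (mem_Rt.1 ha).1 (mem_Rt.1 hb).1 (mem_Rt.1 ha).2 (mem_Rt.1 hb).2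

theorem Mn.rt_nonneg {a b : E} (ha : a ∈ Rt Ψ ν) (hb : b ∈ Rt Ψ ν) : 0 ≤ ⟪a, b⟫ :=
  Mn.nonneg' S N hν (mem_Rt.1 ha).1 (mem_Rt.1 hb).1 (mem_Rt.1 ha).2 (mem_Rt.1 hb).2

theorem Mn.rt_ne {a b : E} (ha : a ∈ Rt Ψ ν) (hb : b ∈ Rt Ψ ν) (h : ⟪a, b⟫ ≠ 2) : ⟪a, b⟫ = 1 ∨ ⟪a, b⟫ = 0 := by
  rcases Mn.rt_cases S N hν ha hb with h1 | h1
  · rw [h1, S.norm b (mem_Rt.1 hb).1] at h
    exact absurd rfl h
  · exact h1

theorem Mn.rt_eq {a b : E} (ha : a ∈ Rt Ψ ν) (hb : b ∈ Rt Ψ ν) (h : ⟪a, b⟫ = 2) : a = b := by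
  rcases Mn.rt_cases S N hν ha hb with h1 | h1 | h1
  · exact h1
  · rw [h1] at h; norm_num at h
  · rw [h1] at h; norm_num at h

open Classical in
/-- half of the neighbours of a root of `R` are in `R` -/
theorem Mn.half {a : E} (ha : a ∈ Rt Ψ ν) :
    2 * ((Rt Ψ ν).filter fun b => ⟪b, a⟫ = 1).card = (Ψ.filter fun b => ⟪b, a⟫ = 1).card := by
  obtain ⟨haΨ, hνa⟩ := mem_Rt.1 ha
  set Na := Ψ.filter fun b => ⟪b, a⟫ = 1 with hNa
  have h1 : ((Rt Ψ ν).filter fun b => ⟪b, a⟫ = 1) = Na.filter fun b => ⟪ν, b⟫ = 1 := by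
    ext b
    simp only [hNa, Finset.mem_filter, mem_Rt]
    tauto
  have h2 := Finset.card_filter_add_card_filter_not (s := Na) (fun b => ⟪ν, b⟫ = 1)
  have h3 : (Na.filter fun b => ¬⟪ν, b⟫ = 1).card = (Na.filter fun b => ⟪ν, b⟫ = 1).card := by
    refine Finset.card_nbij' (fun b => a - b) (fun b => a - b) ?_ ?_ ?_ ?_
    · intro b hb
      rw [Finset.mem_coe, Finset.mem_filter, hNa, Finset.mem_filter] at hb
      obtain ⟨⟨hb1, hb2⟩, hb3⟩ := hb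
      rw [Finset.mem_coe, Finset.mem_filter, hNa, Finset.mem_filter]
      have hs := S.sub a haΨ b hb1 (by rw [real_inner_comm]; exact hb2)
      refine ⟨⟨hs, by rw [inner_sub_left, S.norm a haΨ, hb2]; norm_num⟩, ?_⟩
      have h4 := N.val ν hν _ hs
      rw [inner_sub_right, hνa] at h4 ⊢
      rcases N.val ν hν b hb1 with h5 | h5 | h5
      · rw [h5]; norm_num
      · exact absurd h5 hb3
      · rw [h5] at h4; norm_num at h4
    · intro b hb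
      rw [Finset.mem_coe, Finset.mem_filter, hNa, Finset.mem_filter] at hb
      obtain ⟨⟨hb1, hb2⟩, hb3⟩ := hb
      rw [Finset.mem_coe, Finset.mem_filter, hNa, Finset.mem_filter]
      have hs := S.sub a haΨ b hb1 (by rw [real_inner_comm]; exact hb2)
      refine ⟨⟨hs, by rw [inner_sub_left, S.norm a haΨ, hb2]; norm_num⟩, ?_⟩
      rw [inner_sub_right, hνa, hb3]
      norm_num
    · intro b _
      exact sub_sub_cancel a b
    · intro b _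
      exact sub_sub_cancel a b
  rw [h1]
  omega

open Classical in
theorem Mn.sum_rt {a : E} (ha : a ∈ Rt Ψ ν) :
    ∑ b ∈ Rt Ψ ν, ⟪b, a⟫ = 2 + (((Rt Ψ ν).filter fun b => ⟪b, a⟫ = 1).card : ℝ) := by
  have h1 : ∀ b ∈ Rt Ψ ν, ⟪b, a⟫ = (if b = a then (2 : ℝ) else 0) + (if ⟪b, a⟫ = 1 then (1 : ℝ) else 0) := by
    intro b hb
    rcases Mn.rt_cases S N hν hb ha with h | h | h
    · rw [if_pos h, h, S.norm a (mem_Rt.1 ha).1, if_neg (by norm_num)]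
      norm_num
    · have hne : b ≠ a := by
        intro h2
        rw [h2, S.norm a (mem_Rt.1 ha).1] at h
        norm_num at h
      rw [if_neg hne, if_pos h, h, zero_add]
    · have hne : b ≠ a := by
        intro h2
        rw [h2, S.norm a (mem_Rt.1 ha).1] at h
        norm_num at h
      rw [if_neg hne, h, if_neg (by norm_num), zero_add]
  rw [Finset.sum_congr rfl h1, Finset.sum_add_distrib, Finset.sum_ite_eq' (Rt Ψ ν) a, if_pos ha, ← Finset.sum_filter,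
    Finset.sum_const, nsmul_eq_mul, mul_one]

variable {O : Finset E} (hO : OrthIn Ψ ν O) (hsum : (2 : ℝ) • ν = ∑ a ∈ O, a)
include hO hsum

theorem Mn.o_mem {a : E} (ha : a ∈ O) : a ∈ Rt Ψ ν := mem_Rt.2 (hO.1 a ha)

theorem Mn.sum_o {b : E} (hb : b ∈ Rt Ψ ν) : ∑ a ∈ O, ⟪b, a⟫ = 2 := by
  rw [← inner_sum, ← hsum, inner_smul_right, real_inner_comm, (mem_Rt.1 hb).2, mul_one]

/-- `4 |R| = q (u + 4)` -/
theorem Mn.card_rt {u : ℕ} (hu : ∀ g ∈ Ψ, by classical exact (Ψ.filter fun d => ⟪d, g⟫ = 1).card = u) :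
    4 * (Rt Ψ ν).card = O.card * (u + 4) := by
  classical
  have h1 : ∑ b ∈ Rt Ψ ν, ∑ a ∈ O, ⟪b, a⟫ = 2 * ((Rt Ψ ν).card : ℝ) := by
    rw [Finset.sum_congr rfl fun b hb => Mn.sum_o S N hν hO hsum hb, Finset.sum_const, nsmul_eq_mul, mul_comm]
  rw [Finset.sum_comm] at h1
  have h2 : ∀ a ∈ O, ∑ b ∈ Rt Ψ ν, ⟪b, a⟫ = 2 + (u : ℝ) / 2 := by
    intro a ha
    have haR := Mn.o_mem S N hν hO hsum ha
    rw [Mn.sum_rt S N hν haR]
    have h3 := Mn.half S N hν haR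
    have h4 := hu a (mem_Rt.1 haR).1
    have h5 : 2 * (((Rt Ψ ν).filter fun b => ⟪b, a⟫ = 1).card : ℝ) = u := by
      have h6 : 2 * ((Rt Ψ ν).filter fun b => ⟪b, a⟫ = 1).card = u := by
        rw [h3]
        convert h4 using 2
      exact_mod_cast h6
    linarith
  rw [Finset.sum_congr rfl h2, Finset.sum_const, nsmul_eq_mul] at h1
  have h3 : (4 : ℝ) * ((Rt Ψ ν).card : ℝ) = (O.card : ℝ) * ((u : ℝ) + 4) := by linarith
  exact_mod_cast h3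

end

end PFc
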