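import Pool.Agent.Helper2.PF.Cb2

/-!
Project PF (MP_b8862a_ag), COMB-II, third part: Bessel's inequality.
-/

set_option linter.unusedSectionVars false

open scoped RealInnerProductSpace

namespace PFc

variable {E : Type*} [NormedAddCommGroup E] [InnerProductSpace ℝ E]

section

variable {Ψ M : Finset E} (S : SL Ψ) (N : Mn Ψ M) {ν : E} (hν : ν ∈ M)
include S N hν

/-- (E7)(a) -/
theorem Mn.zero_eq (hirr : Irr Ψ) {d : E} (hd : d ∈ Ψ) (h0 : ⟪ν, d⟫ = 0) :
    ∃ a ∈ Rt Ψ ν, ∃ c ∈ Rt Ψ ν, d = a - c := by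
  classical
  obtain ⟨g, hg, hg0⟩ := N.ne ν hν
  obtain ⟨r, hr⟩ : ∃ r, r ∈ Rt Ψ ν := by
    rcases N.val ν hν g hg with h | h | h
    · exact absurd h hg0
    · exact ⟨g, mem_Rt.2 ⟨hg, h⟩⟩
    · exact ⟨-g, mem_Rt.2 ⟨S.neg g hg, by rw [inner_neg_right, h, neg_neg]⟩⟩
  -- roots which are not orthogonal to `R`, or not to `ν`
  set A := Ψ.filter fun d => ¬ (⟪ν, d⟫ = 0 ∧ ∀ a ∈ Rt Ψ ν, ⟪d, a⟫ = 0) with hA
  have hA1 : A = Ψ := by
    refine hirr A (Finset.filter_subset _ _) ⟨r, ?_⟩ ?_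
    · rw [hA, Finset.mem_filter]
      refine ⟨(mem_Rt.1 hr).1, fun h => ?_⟩
      rw [(mem_Rt.1 hr).2] at h
      norm_num at h
    · intro a ha b hb hbA
      rw [hA, Finset.mem_filter] at ha hbA
      obtain ⟨haΨ, ha'⟩ := ha
      have hb' : ⟪ν, b⟫ = 0 ∧ ∀ a ∈ Rt Ψ ν, ⟪b, a⟫ = 0 := by
        by_contra h
        exact hbA ⟨hb, h⟩
      rcases N.val ν hν a haΨ with h | h | h
      · -- `a` is a difference
        have h2 : ∃ c ∈ Rt Ψ ν, ⟪a, c⟫ ≠ 0 := by
          by_contra h3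
          push Not at h3
          exact ha' ⟨h, h3⟩
        obtain ⟨c, hc, hac⟩ := h2
        obtain ⟨hcΨ, hνc⟩ := mem_Rt.1 hc
        rcases S.cases haΨ hcΨ with h3 | h3 | h3 | h3 | h3
        · rw [h3, hνc] at h; norm_num at h
        · have h4 := S.sub c hcΨ a haΨ (by rw [real_inner_comm]; exact h3)
          have h5 : c - a ∈ Rt Ψ ν := mem_Rt.2 ⟨h4, by rw [inner_sub_right, hνc, h, sub_zero]⟩
          have h6 : a = c - (c - a) := by abel
          rw [h6, inner_sub_left, real_inner_comm, hb'.2 c hc, real_inner_comm, hb'.2 _ h5, sub_zero]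
        · exact absurd h3 hac
        · have h4 := S.add haΨ hcΨ h3
          have h5 : a + c ∈ Rt Ψ ν := mem_Rt.2 ⟨h4, by rw [inner_add_right, hνc, h, zero_add]⟩
          have h6 : a = (a + c) - c := by abel
          rw [h6, inner_sub_left, real_inner_comm, hb'.2 _ h5, real_inner_comm, hb'.2 c hc, sub_zero]
        · rw [h3, inner_neg_right, h] at hνc; norm_num at hνc
      · rw [real_inner_comm]; exact hb'.2 a (mem_Rt.2 ⟨haΨ, h⟩)
      · have h2 : -a ∈ Rt Ψ ν := mem_Rt.2 ⟨S.neg a haΨ, by rw [inner_neg_right, h, neg_neg]⟩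
        have h3 := hb'.2 _ h2
        rw [inner_neg_right, neg_eq_zero] at h3
        rw [real_inner_comm]; exact h3
  have hdA : d ∈ A := by rw [hA1]; exact hd
  rw [hA, Finset.mem_filter] at hdA
  have h2 : ∃ c ∈ Rt Ψ ν, ⟪d, c⟫ ≠ 0 := by
    by_contra h3
    push Not at h3
    exact hdA.2 ⟨h0, h3⟩
  obtain ⟨c, hc, hdc⟩ := h2
  obtain ⟨hcΨ, hνc⟩ := mem_Rt.1 hc
  rcases S.cases hd hcΨ with h3 | h3 | h3 | h3 | h3
  · rw [h3, hνc] at h0; norm_num at h0
  · have h4 := S.sub c hcΨ d hd (by rw [real_inner_comm]; exact h3)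
    exact ⟨c, hc, c - d, mem_Rt.2 ⟨h4, by rw [inner_sub_right, hνc, h0, sub_zero]⟩, by abel⟩
  · exact absurd h3 hdc
  · have h4 := S.add hd hcΨ h3
    exact ⟨d + c, mem_Rt.2 ⟨h4, by rw [inner_add_right, hνc, h0, zero_add]⟩, c, hc, by abel⟩
  · rw [h3, inner_neg_right, h0] at hνc; norm_num at hνc

/-- (E7)(b) -/
theorem Mn.conn (hirr : Irr Ψ) {R' : Finset E} (h1 : R' ⊆ Rt Ψ ν) (h2 : R'.Nonempty)
    (h3 : ∀ a ∈ R', ∀ b ∈ Rt Ψ ν, b ∉ R' → ⟪a, b⟫ = 0) : R' = Rt Ψ ν := by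
  classical
  set A := Ψ.filter fun d => d ∈ R' ∨ -d ∈ R' ∨ (⟪ν, d⟫ = 0 ∧ ∃ a ∈ R', ∃ c ∈ R', d = a - c) with hA
  -- orthogonality to the other part
  have horth : ∀ a ∈ A, ∀ b ∈ Rt Ψ ν, b ∉ R' → ⟪a, b⟫ = 0 := by
    intro a ha b hb hb'
    rw [hA, Finset.mem_filter] at ha
    rcases ha.2 with h | h | ⟨-, c, hc, c', hc', h⟩
    · exact h3 a h b hb hb'
    · have := h3 _ h b hb hb'
      rwa [inner_neg_left, neg_eq_zero] at this
    · rw [h, inner_sub_left, h3 c hc b hb hb', h3 c' hc' b hb hb', sub_zero]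
  have hA1 : A = Ψ := by
    obtain ⟨r, hr⟩ := h2
    refine hirr A (Finset.filter_subset _ _) ⟨r, ?_⟩ ?_
    · rw [hA, Finset.mem_filter]
      exact ⟨(mem_Rt.1 (h1 hr)).1, Or.inl hr⟩
    · intro a ha b hb hbA
      have hb' : ¬ (b ∈ R' ∨ -b ∈ R' ∨ (⟪ν, b⟫ = 0 ∧ ∃ a ∈ R', ∃ c ∈ R', b = a - c)) := fun h =>
        hbA (by rw [hA, Finset.mem_filter]; exact ⟨hb, h⟩)
      push Not at hb'
      rcases N.val ν hν b hb with h | h | h
      · obtain ⟨c, hc, c', hc', hcc⟩ := Mn.zero_eq S N hν hirr hb h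
        have hnc : ⟪c, c'⟫ = 1 := by
          have h5 := S.norm b hb
          rw [hcc, inner_sub_left, inner_sub_right, inner_sub_right, S.norm c (mem_Rt.1 hc).1,
            S.norm c' (mem_Rt.1 hc').1, real_inner_comm c c'] at h5
          linarith
        by_cases h5 : c ∈ R'
        · by_cases h6 : c' ∈ R'
          · exact absurd hcc (hb'.2.2 h c h5 c' h6)
          · have := h3 c h5 c' hc' h6
            rw [hnc] at this
            norm_num at this
        · by_cases h6 : c' ∈ R'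
          · have := h3 c' h6 c hc h5
            rw [real_inner_comm, hnc] at this
            norm_num at this
          · rw [hcc, inner_sub_right, horth a ha c hc h5, horth a ha c' hc' h6, sub_zero]
      · exact horth a ha b (mem_Rt.2 ⟨hb, h⟩) hb'.1
      · have h5 := horth a ha (-b) (mem_Rt.2 ⟨S.neg b hb, by rw [inner_neg_right, h, neg_neg]⟩) hb'.2.1
        rwa [inner_neg_right, neg_eq_zero] at h5
  refine Finset.Subset.antisymm h1 fun b hb => ?_
  by_contra hb'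
  have hbA : b ∈ A := by rw [hA1]; exact (mem_Rt.1 hb).1
  have h5 := horth b hbA b hb hb'
  rw [S.norm b (mem_Rt.1 hb).1] at h5
  norm_num at h5

variable {O : Finset E} (hO : OrthIn Ψ ν O) (hsum : (2 : ℝ) • ν = ∑ a ∈ O, a)
include hO hsum

/-- elements of `R` adjacent to two given elements of `O`, and these -/
theorem Mn.flip {a a' c : E} (ha : a ∈ O) (ha' : a' ∈ O) (haa : a ≠ a') (hc : c ∈ Rt Ψ ν) (h : ⟪c, a + a'⟫ = 2) :
    a + a' - c ∈ Rt Ψ ν := by
  obtain ⟨haΨ, hνa⟩ := hO.1 a ha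
  obtain ⟨haΨ', hνa'⟩ := hO.1 a' ha'
  obtain ⟨hcΨ, hνc⟩ := mem_Rt.1 hc
  have horth := hO.2 a ha a' ha' haa
  rw [inner_add_right] at h
  rcases Mn.rt_cases S N hν hc (Mn.o_mem S N hν hO hsum ha) with h1 | h1 | h1
  · rw [h1, add_sub_cancel_left]
    exact Mn.o_mem S N hν hO hsum ha'
  · have h2 : ⟪c, a'⟫ = 1 := by linarith
    have h3 := S.sub a haΨ c hcΨ (by rw [real_inner_comm]; exact h1)
    have h4 : ⟪a - c, a'⟫ = -1 := by rw [inner_sub_left, horth, h2]; norm_num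
    have h5 := S.add h3 haΨ' h4
    have h6 : a + a' - c = a - c + a' := by abel
    rw [h6]
    refine mem_Rt.2 ⟨h5, ?_⟩
    rw [inner_add_right, inner_sub_right, hνa, hνa', hνc]
    norm_num
  · have h2 : ⟪c, a'⟫ = 2 := by linarith
    have h3 := Mn.rt_eq S N hν hc (Mn.o_mem S N hν hO hsum ha') h2
    rw [h3, add_sub_cancel_right]
    exact Mn.o_mem S N hν hO hsum ha

open Classical in
/-- **Bessel's inequality.** -/
theorem Mn.bessel {a a' : E} (ha : a ∈ O) (ha' : a' ∈ O) (haa : a ≠ a') {b l : E} (hb : b ∈ Rt Ψ ν)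
    (hb1 : ⟪b, a + a'⟫ = 1) (hl : l ∈ O) (hla : l ≠ a) (hla' : l ≠ a') (hbl : ⟪b, l⟫ = 1) :
    ((Rt Ψ ν).filter fun c => ⟪c, a + a'⟫ = 2).card ≤ 10 := by
  obtain ⟨haΨ, hνa⟩ := hO.1 a ha
  obtain ⟨haΨ', hνa'⟩ := hO.1 a' ha'
  obtain ⟨hlΨ, hνl⟩ := hO.1 l hl
  obtain ⟨hbΨ, hνb⟩ := mem_Rt.1 hb
  set C := (Rt Ψ ν).filter fun c => ⟪c, a + a'⟫ = 2 with hC
  have haa0 := hO.2 a ha a' ha' haa
  have h4 : ⟪a + a', a + a'⟫ = 4 := by
    rw [inner_add_left, inner_add_right, inner_add_right, S.norm a haΨ, S.norm a' haΨ', real_inner_comm a a', haa0]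
    norm_num
  have hflip : ∀ c ∈ C, a + a' - c ∈ C := by
    intro c hc
    rw [hC, Finset.mem_filter] at hc ⊢
    refine ⟨Mn.flip S N hν hO hsum ha ha' haa hc.1 hc.2, ?_⟩
    rw [inner_sub_left, h4, hc.2]
    norm_num
  have hcl : ∀ c ∈ C, ⟪c, l⟫ = 0 := by
    intro c hc
    rw [hC, Finset.mem_filter] at hc
    have h1 := Mn.sum_o S N hν hO hsum hc.1
    have h2 : ∑ x ∈ O, ⟪c, x⟫ = ⟪c, a⟫ + (⟪c, a'⟫ + (⟪c, l⟫ + ∑ x ∈ ((O.erase a).erase a').erase l, ⟪c, x⟫)) := by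
      rw [Finset.add_sum_erase _ (fun x => ⟪c, x⟫) (Finset.mem_erase.2 ⟨hla', Finset.mem_erase.2 ⟨hla, hl⟩⟩),
        Finset.add_sum_erase _ (fun x => ⟪c, x⟫) (Finset.mem_erase.2 ⟨fun h => haa h.symm, ha'⟩),
        Finset.add_sum_erase _ (fun x => ⟪c, x⟫) ha]
    have h3 : 0 ≤ ∑ x ∈ ((O.erase a).erase a').erase l, ⟪c, x⟫ := by
      refine Finset.sum_nonneg fun x hx => ?_
      exact Mn.rt_nonneg S N hν hc.1 (Mn.o_mem S N hν hO hsum (Finset.mem_of_mem_erase (Finset.mem_of_mem_erase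
        (Finset.mem_of_mem_erase hx))))
    have h5 := Mn.rt_nonneg S N hν hc.1 (Mn.o_mem S N hν hO hsum hl)
    have h6 := hc.2
    rw [inner_add_right] at h6
    linarith
  -- inner products inside `C`
  have hgram : ∀ c₁ ∈ C, ∀ c ∈ C, ⟪c₁, c⟫ - 1 = (if c₁ = c then (1 : ℝ) else 0) - (if c₁ = a + a' - c then (1 : ℝ) else 0) := by
    intro c₁ hc₁ c hc
    have hc' := hflip c hc
    have hs : ⟪c₁, c⟫ + ⟪c₁, a + a' - c⟫ = 2 := by
      rw [hC, Finset.mem_filter] at hc₁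
      rw [← inner_add_right, add_sub_cancel, hc₁.2]
    have hR1 := (Finset.mem_filter.1 hc₁).1
    have hR := (Finset.mem_filter.1 hc).1
    have hR' := (Finset.mem_filter.1 hc').1
    rcases Mn.rt_cases S N hν hR1 hR with h | h | h
    · have h5 : ⟪c₁, c⟫ = 2 := by rw [h, S.norm c (mem_Rt.1 hR).1]
      have h6 : c₁ ≠ a + a' - c := by
        intro h7
        have h8 : ⟪c₁, a + a' - c⟫ = 2 := by
          rw [← h7, S.norm c₁ (mem_Rt.1 hR1).1]
        linarith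
      rw [if_pos h, if_neg h6, h5]
      norm_num
    · have h5 : c₁ ≠ c := by
        intro h7
        rw [h7, S.norm c (mem_Rt.1 hR).1] at h
        norm_num at h
      have h6 : c₁ ≠ a + a' - c := by
        intro h7
        have h8 : ⟪c₁, a + a' - c⟫ = 2 := by
          rw [← h7, S.norm c₁ (mem_Rt.1 hR1).1]
        linarith
      rw [if_neg h5, if_neg h6, h]
      norm_num
    · have h5 : c₁ ≠ c := by
        intro h7
        rw [h7, S.norm c (mem_Rt.1 hR).1] at h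
        norm_num at h
      have h6 : c₁ = a + a' - c := Mn.rt_eq S N hν hR1 hR' (by linarith)
      rw [if_neg h5, if_pos h6, h]
  -- the values of `b`
  have hg2 : ∀ c ∈ C, (⟪b, c⟫ - 1 / 2) ^ 2 = 1 / 4 := by
    intro c hc
    have hc' := hflip c hc
    have hR := (Finset.mem_filter.1 hc).1
    have hR' := (Finset.mem_filter.1 hc').1
    have hs : ⟪b, c⟫ + ⟪b, a + a' - c⟫ = 1 := by rw [← inner_add_right, add_sub_cancel, hb1]
    have h5 := Mn.rt_nonneg S N hν hb hR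
    have h6 := Mn.rt_nonneg S N hν hb hR'
    rcases Mn.rt_ne S N hν hb hR (by linarith) with h | h
    · rw [h]; norm_num
    · rw [h]; norm_num
  set g : E → ℝ := fun c => ⟪b, c⟫ - 1 / 2 with hg
  have hgflip : ∀ c, g (a + a' - c) = -g c := by
    intro c
    simp only [hg, inner_sub_right, hb1]
    ring
  set e : E := (1 / 2 : ℝ) • (a + a') with he
  have hee : ⟪e, e⟫ = 1 := by rw [he, inner_smul_left, inner_smul_right, h4]; norm_num
  have hce : ∀ c ∈ C, ⟪c, e⟫ = 1 := by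
    intro c hc
    rw [he, inner_smul_right, (Finset.mem_filter.1 hc).2]
    norm_num
  have hbe : ⟪b, e⟫ = 1 / 2 := by rw [he, inner_smul_right, hb1]; norm_num
  have hle : ⟪l, e⟫ = 0 := by
    rw [he, inner_smul_right, inner_add_right, hO.2 l hl a ha hla, hO.2 l hl a' ha' hla']
    norm_num
  set T : E := ∑ c ∈ C, g c • (c - e) with hT
  have hbT : ⟪b, T⟫ = (C.card : ℝ) / 4 := by
    rw [hT, inner_sum]
    have : ∀ c ∈ C, ⟪b, g c • (c - e)⟫ = 1 / 4 := by
      intro c hc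
      rw [inner_smul_right, inner_sub_right, hbe]
      have := hg2 c hc
      simp only [hg]
      linarith [this, sq (⟪b, c⟫ - 1 / 2)]
    rw [Finset.sum_congr rfl this, Finset.sum_const, nsmul_eq_mul]
    ring
  have heT : ⟪e, T⟫ = 0 := by
    rw [hT, inner_sum]
    refine Finset.sum_eq_zero fun c hc => ?_
    rw [inner_smul_right, inner_sub_right, real_inner_comm, hce c hc, hee, sub_self, mul_zero]
  have hlT : ⟪l, T⟫ = 0 := by
    rw [hT, inner_sum]
    refine Finset.sum_eq_zero fun c hc => ?_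
    rw [inner_smul_right, inner_sub_right, real_inner_comm, hcl c hc, hle, sub_self, mul_zero]
  have hTc : ∀ c ∈ C, ⟪T, c - e⟫ = 2 * g c := by
    intro c hc
    rw [hT, sum_inner]
    have h5 : ∀ c₁ ∈ C, ⟪g c₁ • (c₁ - e), c - e⟫ =
        (if c₁ = c then g c₁ else 0) - (if c₁ = a + a' - c then g c₁ else 0) := by
      intro c₁ hc₁
      have h6 : ⟪c₁ - e, c - e⟫ = ⟪c₁, c⟫ - 1 := by
        rw [inner_sub_left, inner_sub_right, inner_sub_right, hce c₁ hc₁, real_inner_comm c e, hce c hc, hee]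
        ring
      rw [inner_smul_left, h6, hgram c₁ hc₁ c hc]
      simp only [conj_trivial]
      split_ifs <;> ring
    rw [Finset.sum_congr rfl h5, Finset.sum_sub_distrib, Finset.sum_ite_eq' C c, if_pos hc,
      Finset.sum_ite_eq' C (a + a' - c), if_pos (hflip c hc), hgflip]
    ring
  have hTT : ⟪T, T⟫ = (C.card : ℝ) / 2 := by
    conv_lhs => rw [hT, inner_sum]
    have h5 : ∀ c ∈ C, ⟪∑ c ∈ C, g c • (c - e), g c • (c - e)⟫ = 1 / 2 := by
      intro c hc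
      rw [inner_smul_right, ← hT, hTc c hc]
      have := hg2 c hc
      simp only [hg]
      linarith [this, sq (⟪b, c⟫ - 1 / 2)]
    rw [Finset.sum_congr rfl h5, Finset.sum_const, nsmul_eq_mul]
    ring
  have hw : 0 ≤ ⟪b - (1 / 2 : ℝ) • e - (1 / 2 : ℝ) • T - (1 / 2 : ℝ) • l, b - (1 / 2 : ℝ) • e - (1 / 2 : ℝ) • T -
      (1 / 2 : ℝ) • l⟫ := real_inner_self_nonneg
  have hcomp : ⟪b - (1 / 2 : ℝ) • e - (1 / 2 : ℝ) • T - (1 / 2 : ℝ) • l, b - (1 / 2 : ℝ) • e - (1 / 2 : ℝ) • T -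
      (1 / 2 : ℝ) • l⟫ = 5 / 4 - (C.card : ℝ) / 8 := by
    simp only [inner_sub_left, inner_sub_right, inner_smul_left, inner_smul_right, conj_trivial,
      real_inner_comm b e, real_inner_comm b T, real_inner_comm b l, real_inner_comm e T, real_inner_comm e l,
      real_inner_comm T l, S.norm b hbΨ, hbe, hbT, hbl, hee, heT, hTT, hlT, hle, S.norm l hlΨ]
    have e1 : ⟪e, b⟫ = 1 / 2 := by rw [real_inner_comm]; exact hbe
    have e2 : ⟪T, b⟫ = (C.card : ℝ) / 4 := by rw [real_inner_comm]; exact hbT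
    have e3 : ⟪l, b⟫ = 1 := by rw [real_inner_comm]; exact hbl
    have e4 : ⟪T, e⟫ = 0 := by rw [real_inner_comm]; exact heT
    have e5 : ⟪T, l⟫ = 0 := by rw [real_inner_comm]; exact hlT
    have e6 : ⟪e, l⟫ = 0 := by rw [real_inner_comm]; exact hle
    simp only [e1, e2, e3, e4, e5, e6]
    ring
  rw [hcomp] at hw
  have h9 : (C.card : ℝ) ≤ 10 := by linarith
  exact_mod_cast h9

end

end PFc
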