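import Pool.Agent.Helper2.PF.Cb3

/-!
Project PF (MP_b8862a_ag), COMB-II, fourth part: the lower bound for the number of minuscule weights.
-/

set_option linter.unusedSectionVars false
set_option linter.unusedSimpArgs false

open scoped RealInnerProductSpace

namespace PFc

variable {E : Type*} [NormedAddCommGroup E] [InnerProductSpace ℝ E]

section

variable {Ψ M : Finset E} (S : SL Ψ) (N : Mn Ψ M) {ν : E} (hν : ν ∈ M) {O : Finset E} (hO : OrthIn Ψ ν O)
  (hsum : (2 : ℝ) • ν = ∑ a ∈ O, a)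
include S N hν hO hsum

theorem Mn.norm_two : ⟪ν, ν⟫ = (O.card : ℝ) / 2 := by
  have h1 : (2 : ℝ) * ⟪ν, ν⟫ = O.card := by
    have h2 : ⟪ν, (2 : ℝ) • ν⟫ = ∑ a ∈ O, ⟪ν, a⟫ := by rw [hsum, inner_sum]
    rw [inner_smul_right, Finset.sum_congr rfl fun a ha => (hO.1 a ha).2, Finset.sum_const, nsmul_eq_mul, mul_one] at h2
    exact h2
  linarith

open Classical in
/-- If `O` has at least three elements, few elements of `R` are adjacent to two given elements of `O`. -/
theorem Mn.card_le_ten (hirr : Irr Ψ) (h3 : 3 ≤ O.card) {a a' : E} (ha : a ∈ O) (ha' : a' ∈ O) (haa : a ≠ a') :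
    ((Rt Ψ ν).filter fun c => ⟪c, a + a'⟫ = 2).card ≤ 10 := by
  have haR := Mn.o_mem S N hν hO hsum ha
  have haR' := Mn.o_mem S N hν hO hsum ha'
  obtain ⟨haΨ, hνa⟩ := hO.1 a ha
  obtain ⟨haΨ', hνa'⟩ := hO.1 a' ha'
  have haa0 := hO.2 a ha a' ha' haa
  set C := (Rt Ψ ν).filter fun c => ⟪c, a + a'⟫ = 2 with hC
  have haC : a ∈ C := by
    rw [hC, Finset.mem_filter]
    exact ⟨haR, by rw [inner_add_right, S.norm a haΨ, haa0]; norm_num⟩
  -- a third element
  obtain ⟨l, hl, hla, hla'⟩ : ∃ l ∈ O, l ≠ a ∧ l ≠ a' := by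
    by_contra h
    push Not at h
    have h4 : O ⊆ {a, a'} := by
      intro l hl
      rw [Finset.mem_insert, Finset.mem_singleton]
      by_cases h5 : l = a
      · exact Or.inl h5
      · exact Or.inr (h l hl h5)
    have h5 := Finset.card_le_card h4
    have h6 := Finset.card_le_two (a := a) (b := a')
    omega
  have hlR := Mn.o_mem S N hν hO hsum hl
  -- an element adjacent to exactly one of `a`, `a'`
  obtain ⟨b, hb, hb1⟩ : ∃ b ∈ Rt Ψ ν, ⟪b, a + a'⟫ = 1 := by
    by_contra hno
    push Not at hno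
    have h4 : C = Rt Ψ ν := by
      refine Mn.conn S N hν hirr (Finset.filter_subset _ _) ⟨a, haC⟩ ?_
      intro c hc b hb hbC
      have hcR := (Finset.mem_filter.1 hc).1
      have hc2 := (Finset.mem_filter.1 hc).2
      -- `b` is orthogonal to `a` and `a'`
      have hb2 : ⟪b, a + a'⟫ ≠ 2 := fun h => hbC (by rw [hC, Finset.mem_filter]; exact ⟨hb, h⟩)
      have hbb := hno b hb
      rw [inner_add_right] at hb2 hbb
      have hba : ⟪b, a⟫ = 0 ∧ ⟪b, a'⟫ = 0 := by
        have h5 := Mn.rt_nonneg S N hν hb haR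
        have h6 := Mn.rt_nonneg S N hν hb haR'
        rcases Mn.rt_cases S N hν hb haR with h | h | h
        · exfalso
          apply hb2
          rw [h, S.norm a haΨ, haa0]
          norm_num
        · exfalso
          rcases Mn.rt_cases S N hν hb haR' with h' | h' | h'
          · rw [h', real_inner_comm, haa0] at h
            norm_num at h
          · apply hb2; rw [h, h']; norm_num
          · apply hbb; rw [h, h']; norm_num
        · refine ⟨h, ?_⟩
          rcases Mn.rt_cases S N hν hb haR' with h' | h' | h'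
          · exfalso
            apply hb2
            rw [h, h', S.norm a' haΨ']
            norm_num
          · exfalso
            apply hbb; rw [h, h']; norm_num
          · exact h'
      -- `c` is adjacent to both, or one of them
      rw [inner_add_right] at hc2
      rcases Mn.rt_cases S N hν hcR haR with h | h | h
      · rw [h, real_inner_comm]; exact hba.1
      · have h5 : ⟪c, a'⟫ = 1 := by linarith
        rcases Mn.rt_cases S N hν hcR hb with h6 | h6 | h6
        · rw [h6, hba.1] at h; norm_num at h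
        · exfalso
          have h7 := S.sub c (mem_Rt.1 hcR).1 b (mem_Rt.1 hb).1 h6
          have h8 : ⟪a, c - b⟫ = 1 := by
            rw [inner_sub_right, real_inner_comm, h, real_inner_comm, hba.1, sub_zero]
          have h9 := S.sub a haΨ _ h7 h8
          have h10 : a - (c - b) ∈ Rt Ψ ν := mem_Rt.2 ⟨h9, by
            rw [inner_sub_right, inner_sub_right, hνa, (mem_Rt.1 hcR).2, (mem_Rt.1 hb).2]; norm_num⟩
          have h11 := Mn.rt_nonneg S N hν h10 haR'
          rw [inner_sub_left, inner_sub_left, haa0, h5, hba.2] at h11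
          norm_num at h11
        · exact h6
      · have h5 : ⟪c, a'⟫ = 2 := by linarith
        rw [Mn.rt_eq S N hν hcR haR' h5, real_inner_comm]
        exact hba.2
    have h5 : l ∈ C := by rw [h4]; exact hlR
    rw [hC, Finset.mem_filter, inner_add_right, hO.2 l hl a ha hla, hO.2 l hl a' ha' hla'] at h5
    norm_num at h5
  -- and to a third element
  obtain ⟨l, hl, hla, hla', hbl⟩ : ∃ l ∈ O, l ≠ a ∧ l ≠ a' ∧ ⟪b, l⟫ = 1 := by
    have h4 := Mn.sum_o S N hν hO hsum hb
    have h5 : ∑ x ∈ O, ⟪b, x⟫ = ⟪b, a⟫ + (⟪b, a'⟫ + ∑ x ∈ (O.erase a).erase a', ⟪b, x⟫) := by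
      rw [Finset.add_sum_erase _ (fun x => ⟪b, x⟫) (Finset.mem_erase.2 ⟨fun h => haa h.symm, ha'⟩),
        Finset.add_sum_erase _ (fun x => ⟪b, x⟫) ha]
    rw [inner_add_right] at hb1
    have h6 : ∑ x ∈ (O.erase a).erase a', ⟪b, x⟫ = 1 := by linarith
    by_contra hno
    push Not at hno
    have h7 : ∀ x ∈ (O.erase a).erase a', ⟪b, x⟫ = 0 ∨ ⟪b, x⟫ = 2 := by
      intro x hx
      rw [Finset.mem_erase, Finset.mem_erase] at hx
      have hxR := Mn.o_mem S N hν hO hsum hx.2.2
      rcases Mn.rt_cases S N hν hb hxR with h | h | h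
      · right; rw [h, S.norm x (mem_Rt.1 hxR).1]
      · exact absurd h (hno x hx.2.2 hx.2.1 hx.1)
      · exact Or.inl h
    by_cases h8 : ∃ x ∈ (O.erase a).erase a', ⟪b, x⟫ = 2
    · obtain ⟨x, hx, hx2⟩ := h8
      have h9 := Finset.single_le_sum (f := fun x => ⟪b, x⟫) (s := (O.erase a).erase a') (fun y hy => by
        rcases h7 y hy with h | h <;> rw [h] <;> norm_num) hx
      rw [h6, hx2] at h9
      norm_num at h9
    · push Not at h8
      have h9 : ∑ x ∈ (O.erase a).erase a', ⟪b, x⟫ = 0 := Finset.sum_eq_zero fun x hx => by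
        rcases h7 x hx with h | h
        · exact h
        · exact absurd h (h8 x hx)
      rw [h6] at h9
      norm_num at h9
  exact Mn.bessel S N hν hO hsum ha ha' haa hb hb1 hl hla hla' hbl

open Classical in
/-- `u ≤ 16 (q - 1)` if `q ≥ 3` -/
theorem Mn.u_le (hirr : Irr Ψ) (h3 : 3 ≤ O.card) {u : ℕ} (hu : ∀ g ∈ Ψ, (Ψ.filter fun d => ⟪d, g⟫ = 1).card = u) :
    u + 16 ≤ 16 * O.card := by
  obtain ⟨a, ha⟩ : O.Nonempty := Finset.card_pos.1 (by omega)
  have haR := Mn.o_mem S N hν hO hsum ha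
  obtain ⟨haΨ, hνa⟩ := hO.1 a ha
  have h1 := Mn.half S N hν haR
  rw [hu a haΨ] at h1
  -- every neighbour of `a` is adjacent to another element of `O`
  have h2 : ((Rt Ψ ν).filter fun b => ⟪b, a⟫ = 1) ⊆
      (O.erase a).biUnion fun a' => ((((Rt Ψ ν).filter fun c => ⟪c, a + a'⟫ = 2).erase a).erase a') := by
    intro b hb
    rw [Finset.mem_filter] at hb
    obtain ⟨hbR, hba⟩ := hb
    have h4 := Mn.sum_o S N hν hO hsum hbR
    rw [← Finset.add_sum_erase _ (fun x => ⟪b, x⟫) ha] at h4
    simp only [hba] at h4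
    have h6 : ∑ x ∈ O.erase a, ⟪b, x⟫ = 1 := by linarith
    obtain ⟨a', ha', hba'⟩ : ∃ a' ∈ O.erase a, ⟪b, a'⟫ = 1 := by
      by_contra hno
      push Not at hno
      have h7 : ∀ x ∈ O.erase a, ⟪b, x⟫ = 0 ∨ ⟪b, x⟫ = 2 := by
        intro x hx
        have hxR := Mn.o_mem S N hν hO hsum (Finset.mem_of_mem_erase hx)
        rcases Mn.rt_cases S N hν hbR hxR with h | h | h
        · right; rw [h, S.norm x (mem_Rt.1 hxR).1]
        · exact absurd h (hno x hx)
        · exact Or.inl h
      by_cases h8 : ∃ x ∈ O.erase a, ⟪b, x⟫ = 2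
      · obtain ⟨x, hx, hx2⟩ := h8
        have h9 := Finset.single_le_sum (f := fun x => ⟪b, x⟫) (s := O.erase a) (fun y hy => by
          rcases h7 y hy with h | h <;> rw [h] <;> norm_num) hx
        rw [h6, hx2] at h9
        norm_num at h9
      · push Not at h8
        have h9 : ∑ x ∈ O.erase a, ⟪b, x⟫ = 0 := Finset.sum_eq_zero fun x hx => by
          rcases h7 x hx with h | h
          · exact h
          · exact absurd h (h8 x hx)
        rw [h6] at h9
        norm_num at h9
    rw [Finset.mem_biUnion]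
    refine ⟨a', ha', ?_⟩
    rw [Finset.mem_erase, Finset.mem_erase, Finset.mem_filter]
    refine ⟨?_, ?_, hbR, ?_⟩
    · intro h
      rw [h, S.norm a' (hO.1 a' (Finset.mem_of_mem_erase ha')).1] at hba'
      norm_num at hba'
    · intro h
      rw [h, S.norm a haΨ] at hba
      norm_num at hba
    · rw [inner_add_right, hba, hba']
      norm_num
  have h4 := Finset.card_le_card h2
  have h5 := Finset.card_biUnion_le (s := O.erase a)
    (t := fun a' => ((((Rt Ψ ν).filter fun c => ⟪c, a + a'⟫ = 2).erase a).erase a'))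
  have h6 : ∀ a' ∈ O.erase a, ((((Rt Ψ ν).filter fun c => ⟪c, a + a'⟫ = 2).erase a).erase a').card ≤ 8 := by
    intro a' ha'
    have hne : a ≠ a' := fun h => (Finset.ne_of_mem_erase ha') h.symm
    have haO' := Finset.mem_of_mem_erase ha'
    have h7 := Mn.card_le_ten S N hν hO hsum hirr h3 ha haO' hne
    have haa0 := hO.2 a ha a' haO' hne
    have h8 : a ∈ (Rt Ψ ν).filter fun c => ⟪c, a + a'⟫ = 2 := by
      rw [Finset.mem_filter]
      exact ⟨haR, by rw [inner_add_right, S.norm a haΨ, haa0]; norm_num⟩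
    have h9 : a' ∈ ((Rt Ψ ν).filter fun c => ⟪c, a + a'⟫ = 2).erase a := by
      rw [Finset.mem_erase, Finset.mem_filter]
      exact ⟨fun h => hne h.symm, Mn.o_mem S N hν hO hsum haO', by
        rw [inner_add_right, real_inner_comm, haa0, S.norm a' (hO.1 a' haO').1]; norm_num⟩
    rw [Finset.card_erase_of_mem h9, Finset.card_erase_of_mem h8]
    omega
  have h7 := Finset.sum_le_sum h6
  rw [Finset.sum_const, smul_eq_mul, Finset.card_erase_of_mem ha] at h7
  have h8 : 1 ≤ O.card := by omega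
  omega

open Classical in
/-- `2 + 2 |R| ≤ |M|` if `q ≥ 3` -/
theorem Mn.card_m (h3 : 3 ≤ O.card) : 2 + 2 * (Rt Ψ ν).card ≤ M.card := by
  have hnorm := Mn.norm_two S N hν hO hsum
  have h3' : (3 : ℝ) ≤ O.card := by exact_mod_cast h3
  have hνν : ⟪ν, ν⟫ ≥ 3 / 2 := by rw [hnorm]; linarith
  set A := (Rt Ψ ν).image fun a => ν - a with hA
  set B := (Rt Ψ ν).image fun a => -ν + a with hB
  have hAc : A.card = (Rt Ψ ν).card := Finset.card_image_of_injective _ fun a b h => sub_right_injective h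
  have hBc : B.card = (Rt Ψ ν).card := Finset.card_image_of_injective _ fun a b h => add_right_injective _ h
  have hAB : Disjoint A B := by
    rw [Finset.disjoint_left]
    intro x hx hx'
    rw [hA, Finset.mem_image] at hx
    rw [hB, Finset.mem_image] at hx'
    obtain ⟨a, ha, rfl⟩ := hx
    obtain ⟨b, hb, h⟩ := hx'
    have h1 : ⟪ν, ν - a⟫ = ⟪ν, -ν + b⟫ := by rw [h]
    rw [inner_sub_right, inner_add_right, inner_neg_right, (mem_Rt.1 ha).2, (mem_Rt.1 hb).2] at h1
    linarith
  have hνA : ν ∉ A := by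
    intro h
    rw [hA, Finset.mem_image] at h
    obtain ⟨a, ha, h⟩ := h
    have h1 : ⟪ν, ν - a⟫ = ⟪ν, ν⟫ := by rw [h]
    rw [inner_sub_right, (mem_Rt.1 ha).2] at h1
    linarith
  have hνB : ν ∉ B := by
    intro h
    rw [hB, Finset.mem_image] at h
    obtain ⟨a, ha, h⟩ := h
    have h1 : ⟪ν, -ν + a⟫ = ⟪ν, ν⟫ := by rw [h]
    rw [inner_add_right, inner_neg_right, (mem_Rt.1 ha).2] at h1
    linarith
  have hnA : -ν ∉ A := by
    intro h
    rw [hA, Finset.mem_image] at h
    obtain ⟨a, ha, h⟩ := h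
    have h1 : ⟪ν, ν - a⟫ = ⟪ν, -ν⟫ := by rw [h]
    rw [inner_sub_right, inner_neg_right, (mem_Rt.1 ha).2] at h1
    linarith
  have hnB : -ν ∉ B := by
    intro h
    rw [hB, Finset.mem_image] at h
    obtain ⟨a, ha, h⟩ := h
    have h1 : ⟪ν, -ν + a⟫ = ⟪ν, -ν⟫ := by rw [h]
    rw [inner_add_right, inner_neg_right, (mem_Rt.1 ha).2] at h1
    linarith
  have hnn : ν ≠ -ν := by
    intro h
    have h1 : ⟪ν, -ν⟫ = ⟪ν, ν⟫ := by rw [← h]
    rw [inner_neg_right] at h1
    linarith
  have hsub : insert ν (insert (-ν) (A ∪ B)) ⊆ M := by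
    intro x hx
    rw [Finset.mem_insert, Finset.mem_insert, Finset.mem_union] at hx
    rcases hx with rfl | rfl | hx | hx
    · exact hν
    · exact N.neg ν hν
    · rw [hA, Finset.mem_image] at hx
      obtain ⟨a, ha, rfl⟩ := hx
      exact N.refl ν hν a (mem_Rt.1 ha).1 (mem_Rt.1 ha).2
    · rw [hB, Finset.mem_image] at hx
      obtain ⟨a, ha, rfl⟩ := hx
      have h1 := N.neg _ (N.refl ν hν a (mem_Rt.1 ha).1 (mem_Rt.1 ha).2)
      have h2 : -(ν - a) = -ν + a := by abel
      rwa [h2] at h1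
  have h4 := Finset.card_le_card hsub
  rw [Finset.card_insert_of_notMem, Finset.card_insert_of_notMem, Finset.card_union_of_disjoint hAB, hAc, hBc] at h4
  · omega
  · rw [Finset.mem_union]
    exact fun h => h.elim hnA hnB
  · rw [Finset.mem_insert, Finset.mem_union]
    exact fun h => h.elim hnn fun h => h.elim hνA hνB

/-- **(E7)** -/
theorem Mn.card_big (hirr : Irr Ψ) (h3 : 3 ≤ O.card) {u : ℕ}
    (hu : ∀ g ∈ Ψ, by classical exact (Ψ.filter fun d => ⟪d, g⟫ = 1).card = u) :
    u ^ 2 + 20 * u + 128 ≤ 32 * M.card := by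
  classical
  have h1 := Mn.card_rt S N hν hO hsum hu
  have h2 := Mn.u_le S N hν hO hsum hirr h3 (u := u) (fun g hg => by convert hu g hg using 2)
  have h4 := Mn.card_m S N hν hO hsum h3
  have h5 : (u + 16) * (u + 4) ≤ 16 * O.card * (u + 4) := Nat.mul_le_mul_right _ h2
  have h6 : 16 * O.card * (u + 4) = 64 * (Rt Ψ ν).card := by
    rw [mul_assoc, ← h1]
    ring
  rw [h6] at h5
  nlinarith [h5, h4]

end

/-- **COMB-II, main part.** For a set of minuscule weights: either the square norm is at most one, and twice each weight is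
the sum of two orthogonal roots, or there are many weights. -/
theorem Mn.dichotomy {Ψ M : Finset E} (S : SL Ψ) (N : Mn Ψ M) (hirr : Irr Ψ) {u : ℕ} (hpos : 0 < u)
    (hu : ∀ g ∈ Ψ, by classical exact (Ψ.filter fun d => ⟪d, g⟫ = 1).card = u) {ν : E} (hν : ν ∈ M) :
    (⟪ν, ν⟫ = 1 ∧ ∃ a ∈ Ψ, ∃ b ∈ Ψ, ⟪a, b⟫ = 0 ∧ ν + ν = a + b) ∨ u ^ 2 + 20 * u + 128 ≤ 32 * M.card := by
  classical
  obtain ⟨O, hO, hsum⟩ := Mn.exists_orth S N hν
  rcases Nat.lt_or_ge O.card 3 with h | h
  · left
    have hnorm := Mn.norm_two S N hν hO hsum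
    interval_cases hc : O.card
    · -- `ν = 0`
      exfalso
      rw [Nat.cast_zero, zero_div] at hnorm
      have h0 := inner_self_eq_zero.1 hnorm
      obtain ⟨g, -, hg⟩ := N.ne ν hν
      apply hg
      rw [h0, inner_zero_left]
    · -- `2 ν` is a root
      exfalso
      obtain ⟨a, rfl⟩ := Finset.card_eq_one.1 hc
      rw [Finset.sum_singleton] at hsum
      have haΨ := (hO.1 a (Finset.mem_singleton_self a)).1
      have h1 := hu a haΨ
      obtain ⟨d, hd⟩ : (Ψ.filter fun d => ⟪d, a⟫ = 1).Nonempty := by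
        apply Finset.card_pos.1
        convert hpos using 1
      rw [Finset.mem_filter] at hd
      have h2 := N.val ν hν d hd.1
      have h3 : (2 : ℝ) * ⟪ν, d⟫ = 1 := by
        have h4 : ⟪(2 : ℝ) • ν, d⟫ = ⟪a, d⟫ := by rw [hsum]
        rw [inner_smul_left, conj_trivial, real_inner_comm d a, hd.2] at h4
        exact h4
      rcases h2 with h | h | h <;> rw [h] at h3 <;> norm_num at h3
    · obtain ⟨a, b, hab, rfl⟩ := Finset.card_eq_two.1 hc
      rw [Finset.sum_pair hab] at hsum
      refine ⟨by rw [hnorm]; norm_num, a, (hO.1 a (by simp)).1, b, (hO.1 b (by simp)).1,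
        hO.2 a (by simp) b (by simp) hab, ?_⟩
      rw [← two_smul ℝ, hsum]
  · right
    exact Mn.card_big S N hν hO hsum hirr h hu

end PFc
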