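import Pool.Agent.Helper3.PF.Defs
import Pool.Agent.Helper2.PF.Cb4

/-!
Project PF (MP_b8862a_ag), COMB-II, fifth part: the elements of minimal norm of a saturated set of weights.
-/

set_option linter.unusedSectionVars false

open scoped RealInnerProductSpace

namespace PF

variable {E : Type*} [NormedAddCommGroup E] [InnerProductSpace ℝ E] {Φ X : Finset E}

theorem mem_Psi2 {a : E} : a ∈ Psi Φ ↔ a ∈ Φ ∧ ⟪a, a⟫ = (2 : ℝ) := by
  unfold Psi
  rw [Finset.mem_filter]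

theorem co_Psi2 {a : E} (ha : a ∈ Psi Φ) (x : E) : co a x = ⟪x, a⟫ := by
  unfold co
  rw [(mem_Psi2.1 ha).2]
  ring

theorem NRS.neg2 (h : NRS Φ) {a : E} (ha : a ∈ Φ) : -a ∈ Φ := by
  have h1 := h.refl a ha a ha
  have h2 : ⟪a, a⟫ ≠ 0 := fun h0 => h.ne_zero a ha (inner_self_eq_zero.1 h0)
  have h3 : co a a = 2 := by
    unfold co
    field_simp
  rw [h3] at h1
  have h4 : a - (2 : ℝ) • a = -a := by rw [two_smul]; abel
  rwa [h4] at h1

theorem NRS.SL2 (h : NRS Φ) : PFc.SL (Psi Φ) where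
  norm g hg := (mem_Psi2.1 hg).2
  neg g hg := mem_Psi2.2 ⟨h.neg2 (mem_Psi2.1 hg).1, by rw [inner_neg_left, inner_neg_right, neg_neg]; exact (mem_Psi2.1 hg).2⟩
  int g hg d hd := by
    obtain ⟨k, hk⟩ := h.int d (mem_Psi2.1 hd).1 g (mem_Psi2.1 hg).1
    exact ⟨k, by rw [← co_Psi2 hd g, hk]⟩
  sub g hg d hd h1 := by
    have h2 := h.refl d (mem_Psi2.1 hd).1 g (mem_Psi2.1 hg).1
    rw [co_Psi2 hd g, h1, one_smul] at h2
    refine mem_Psi2.2 ⟨h2, ?_⟩
    rw [inner_sub_left, inner_sub_right, inner_sub_right, (mem_Psi2.1 hg).2, (mem_Psi2.1 hd).2, real_inner_comm g d, h1]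
    norm_num

open Classical in
/-- the weights of minimal norm -/
noncomputable def Mm (X : Finset E) : Finset E := X.filter fun x => ∀ y ∈ X, ⟪x, x⟫ ≤ ⟪y, y⟫

theorem mem_Mm {x : E} : x ∈ Mm X ↔ x ∈ X ∧ ∀ y ∈ X, ⟪x, x⟫ ≤ ⟪y, y⟫ := by
  unfold Mm
  rw [Finset.mem_filter]

theorem Mm_nonempty (hX : X.Nonempty) : ∃ x, x ∈ Mm X := by
  obtain ⟨x, hx, h⟩ := Finset.exists_min_image X (fun x => ⟪x, x⟫) hX
  exact ⟨x, mem_Mm.2 ⟨hx, h⟩⟩

theorem Sat.sub2 (hX : Sat Φ X) {x g : E} (hx : x ∈ X) (hg : g ∈ Psi Φ) (h : 1 ≤ ⟪x, g⟫) : x - g ∈ X := by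
  have h1 := hX.str g (mem_Psi2.1 hg).1 x hx 1 (by rw [co_Psi2 hg x, Nat.cast_one]; exact h)
  rwa [Nat.cast_one, one_smul] at h1

/-- **(E2)** -/
theorem Sat.Mn2 (h : NRS Φ) (hX : Sat Φ X) (h0 : (0 : E) ∉ X)
    (hcl : AddSubgroup.closure (Φ : Set E) ≤ AddSubgroup.closure (Psi Φ : Set E)) : PFc.Mn (Psi Φ) (Mm X) := by
  have S := h.SL2
  have hle : ∀ x ∈ Mm X, ∀ g ∈ Psi Φ, ⟪x, g⟫ < 2 := by
    intro x hx g hg
    by_contra hcon
    push Not at hcon
    have h1 := hX.sub2 (mem_Mm.1 hx).1 hg (by linarith)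
    have h2 := (mem_Mm.1 hx).2 _ h1
    rw [inner_sub_left, inner_sub_right, inner_sub_right, S.norm g hg, real_inner_comm x g] at h2
    linarith
  refine ⟨?_, ?_, ?_, ?_, ?_⟩
  · intro x hx g hg
    obtain ⟨k, hk⟩ := hX.int g (mem_Psi2.1 hg).1 x (mem_Mm.1 hx).1
    rw [co_Psi2 hg x] at hk
    have h1 := hle x hx g hg
    have h2 := hle x hx (-g) (S.neg g hg)
    rw [inner_neg_right] at h2
    rw [hk] at h1 h2 ⊢
    have h3 : k < 2 := by exact_mod_cast h1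
    have h4 : -k < 2 := by exact_mod_cast h2
    have h5 : k = 0 ∨ k = 1 ∨ k = -1 := by omega
    rcases h5 with h5 | h5 | h5
    · left; rw [h5, Int.cast_zero]
    · right; left; rw [h5, Int.cast_one]
    · right; right; rw [h5]; norm_num
  · intro x hx g hg h1
    refine mem_Mm.2 ⟨hX.sub2 (mem_Mm.1 hx).1 hg h1.ge, fun y hy => ?_⟩
    have h2 := (mem_Mm.1 hx).2 y hy
    rw [inner_sub_left, inner_sub_right, inner_sub_right, S.norm g hg, real_inner_comm x g, h1]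
    linarith
  · intro x hx
    refine mem_Mm.2 ⟨hX.neg x (mem_Mm.1 hx).1, fun y hy => ?_⟩
    rw [inner_neg_left, inner_neg_right, neg_neg]
    exact (mem_Mm.1 hx).2 y hy
  · intro x hx y hy
    exact hcl (hX.coset x (mem_Mm.1 hx).1 y (mem_Mm.1 hy).1)
  · intro x hx
    by_contra hcon
    push Not at hcon
    have h1 : ∀ z ∈ AddSubgroup.closure (Psi Φ : Set E), ⟪x, z⟫ = 0 := by
      intro z hz
      induction hz using AddSubgroup.closure_induction with
      | mem z hz => exact hcon z hz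
      | zero => exact inner_zero_right x
      | add y z _ _ hy hz => rw [inner_add_right, hy, hz, add_zero]
      | neg y _ hy => rw [inner_neg_right, hy, neg_zero]
    have hxX := (mem_Mm.1 hx).1
    have h2 := h1 _ (hcl (hX.coset x hxX (-x) (hX.neg x hxX)))
    rw [sub_neg_eq_add, inner_add_right] at h2
    have h3 : ⟪x, x⟫ = 0 := by linarith
    exact h0 (inner_self_eq_zero.1 h3 ▸ hxX)

end PF
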